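import Pool.Agent.Helper41.SQC.Defs

/-!
# MP_bb32d1_al, stage C: goals of the family part (captain helper41)

Every goal is a `def S_XX : Prop` with its complete proof in the doc-string.  Deliver
`Pool/Agent/<YourSeat>/SQC/XX.lean`, importing this file, with a theorem `c_xx : S_XX` in the
namespace `Pool.Agent.<YourSeat>.SQC`.  As hypotheses you may take other goals `(h : S_YY)` that
are named as allowed; goals of the namespace `Pool.Agent.Helper19.SQ` (stage A) are all proved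
(grep the name in `Pool/Agent/Helper4/SQ/QMain.lean`, `Pool/Agent/Helper19/SQ/Main.lean`).
Notation: `E_ij = rv q E i j`, `F°_ij = rvo q F i j`, `k_i = kk l K i (i+1) = K_i K_{i+1}⁻¹`,
`k_i⁻¹ = kk l K (i+1) i`, `ω = q - q⁻¹`.  All formulas of this file were checked by computer
(exactly, modulo a prime, with generic `κ`, `s`, for `n = 2, 3`).
-/

set_option autoImplicit false
set_option linter.unusedSectionVars false

namespace Pool.Agent.Helper41.SQC

noncomputable section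

open Matrix Pool.Agent.Helper19.SQ Pool.Agent.Helper34.SQ Pool.Agent.Helper41.SQ
  Pool.Agent.Helper4.SQ

/-! ### monomials, with contents -/

/-- **SPW** (packet SPW): words are combinations of monomials with the same content.
Model: the proof of `S_SPAN` (`Pool/Agent/*/SQ`, grep SPAN); hypothesis allowed: S_LM.
PROOF.  Induction on the word; `k < N`, `b` admissible with content `count w`.  By LM `E_k mon b` is the
sum over `i < k` of `wL * (-q [b_ik])` times `mon (mvr b i k)`, plus `wL mon (inc b k (k+1))`.  If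
`b_ik = 0` the coefficient is `0` (`qn q 0 = 0`).  Otherwise `mvr b i k = b - (i,k) + (i,k+1)`; an exponent
`(i,j)` contributes to `cn m` for `i ≤ m < j`, so `cn (mvr b i k) m = cn b m + [m = k]`; also
`cn (inc b k (k+1)) m = cn b m + [m = k]`.  The new exponents are admissible except possibly the one at
`(i,k+1)` (resp. `(k,k+1)`), which may be `l`; then the monomial contains the factor `E_{i,k+1}^l = 0`. -/
def S_SPW : Prop :=
  ∀ (R : Type) [Ring R] [Algebra ℂ R] (N l : ℕ) (q : ℂ) (E : ℕ → R), 0 < l → q ≠ 0 →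
    q ^ 2 ≠ 1 → q ^ 2 ≠ -1 → SerreRel q E → (∀ i, N ≤ i → E i = 0) →
    (∀ d i, rvA q E d i ^ l = 0) → ∀ w : List ℕ, (∀ k ∈ w, k < N) →
    (w.map E).prod ∈ Submodule.span ℂ {x | ∃ b, IsEx N l b ∧
      (∀ m, m < N → cn N b m = w.count m) ∧ x = mon N q E b}

/-- **MOW** (packet MOW): monomials are combinations of words with the same content.
Model: the proof of `S_MONW` (grep MONW).
PROOF.  `E_ij = rv q E i j` (`i < j ≤ N`) is a combination of words in which every letter `m` with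
`i ≤ m < j` occurs exactly once and no other letter (induction on `j - i` with the definition of `rvA`).
The span of the words of content `c` times the span of the words of content `c'` is in the span of the
words of content `c + c'`.  `mon` is the product of the `E_ij ^ b_ij`, whose total content is
`m ↦ ∑_{i ≤ m < j ≤ N} b_ij = cn N b m` (`m < N`). -/
def S_MOW : Prop :=
  ∀ (R : Type) [Ring R] [Algebra ℂ R] (N : ℕ) (q : ℂ) (E : ℕ → R) (b : ℕ → ℕ → ℕ),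
    (∀ i j, ¬ (i < j ∧ j ≤ N) → b i j = 0) →
    mon N q E b ∈ Submodule.span ℂ {x | ∃ w : List ℕ, (∀ k ∈ w, k < N) ∧
      (∀ m, m < N → w.count m = cn N b m) ∧ x = (w.map E).prod}

/-- **FM** (packet FM): left multiplication in every family, and the content of the
coefficients.  Hypothesis allowed: S_LM.
PROOF.  (1) For `k ≥ N` both sides are `0`.  For `k < N` this is LM: `PhM k b a = Lf q k a b` is the
coefficient of `mon b` in the formula of LM; the targets `mvr a i k`, `inc a k (k+1)` which are not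
admissible contribute `0`: if `a_ik = 0` the coefficient is `0`; otherwise the exponent at `(i,k+1)`
(resp. `(k,k+1)`) is `l` and `mon` contains the factor `E_{i,k+1}^l = 0`.
(2) if `Lf q k a b ≠ 0` then `b = inc a k (k+1)` or `b = mvr a i k` with `i < k`, `a_ik ≠ 0`; see SPW for the
contents. -/
def S_FM : Prop :=
  (∀ (R : Type) [Ring R] [Algebra ℂ R] (N l : ℕ) (q : ℂ) (E : ℕ → R), Par N l q →
    SerreRel q E → (∀ i, N ≤ i → E i = 0) → (∀ d i, rvA q E d i ^ l = 0) →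
    ∀ (k : ℕ) (a : EX N l), E k * mon N q E a.1 = ∑ b, PhM N l q k b a • mon N q E b.1) ∧
  (∀ (N l : ℕ) (q : ℂ) (k : ℕ) (a b : EX N l), PhM N l q k b a ≠ 0 → k < N ∧
    ∀ m, m < N → cn N b.1 m = cn N a.1 m + (if m = k then 1 else 0))

/-- **KM** (packet KM): the weights of the monomials in `F`.  Hypothesis allowed: S_MOW.
PROOF.  `K_j F_w = q^{-∑_m pr j m count(m,w)} F_w K_j` for a word `w` with letters `< N` (induction, `KF`).
By MOW `mon N q F a` is a combination of words with `count m w = cn N a m`, and the exponent is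
`wz N a j` for all of them. -/
def S_KM : Prop :=
  ∀ (R : Type) [Ring R] [Algebra ℂ R] (N l : ℕ) (q : ℂ) (t t' E F K : ℕ → R), Par N l q →
    GlT N l q t t' E F K → ∀ (j : ℕ) (a : EX N l),
    K j * mon N q F a.1 = q ^ wz N a.1 j • (mon N q F a.1 * K j)

/-- **KWT** (packet KWT): weights of the root vectors.  Model: `S_KW`, `S_KG` (grep KW).
PROOF.  `pr p k = ew p k (k+1)`, `ew p i (i+1) + ew p (i+1) j = ew p i j`; induction on `j - i` with the
definitions of `rvA`, `rvoA`.  For `ki l K p = K_p^(l-1)`: `K_p R = q^e R K_p` gives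
`K_p^(l-1) R = q^(e (l-1)) R K_p^(l-1)` and `q^(e(l-1)) = q^(-e)` as `q^l = 1`. -/
def S_KWT : Prop :=
  ∀ (R : Type) [Ring R] [Algebra ℂ R] (N l : ℕ) (q : ℂ) (t t' E F K : ℕ → R), Par N l q →
    GlT N l q t t' E F K → ∀ p i j, i < j →
    (K p * rv q E i j = q ^ ew p i j • (rv q E i j * K p) ∧
    ki l K p * rv q E i j = q ^ (-ew p i j) • (rv q E i j * ki l K p)) ∧
    (K p * rvo q F i j = q ^ (-ew p i j) • (rvo q F i j * K p) ∧
    ki l K p * rvo q F i j = q ^ ew p i j • (rvo q F i j * ki l K p)) ∧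
    (K p * ki l K p = 1 ∧ ∀ r, K p * ki l K r = ki l K r * K p)

/-- **VD** (packet VD): the structure constants `P`, `Q`.  Hypotheses allowed: S_SPW, S_MOW.
PROOF.  `Fr = FreeAlgebra ℂ ℕ`, `f_i = ι i`, `c = (q - q⁻¹)⁻¹`, `k < N`, `a_ki = pr k i - pr (k+1) i`.
(1) Let `M : Fr → Matrix (Fin 2) (Fin 2) Fr` be the algebra map with
`f_i ↦ !![f_i, if i = k then c • 1 else 0; 0, q^(-a_ki) • f_i]`.  Its entries are `(0,0)`: `x`, `(1,0)`: `0`,
`(1,1)`: `σ x` (`σ` the algebra map `f_i ↦ q^(-a_ki) f_i`), and `p x := M x 0 1` satisfies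
`p (x y) = x p(y) + p(x) σ(y)`.  Let `p'`, `σ'` be the same with `q^(a_ki)`.
(2) In a `GlT` family with `η : Fr → R`, `f_i ↦ F_i`:
`E_k η(x) = η(x) E_k + t_k η(p x) k_k - t'_k η(p' x) k_k⁻¹` (`k_k = kk l K k (k+1)`,
`k_k⁻¹ = kk l K (k+1) k`).  Induction on `x`: scalars: `p = 0`.  Generators: `EF_ne`, resp. `EF` (`K_k` and
`K_{k+1}` commute).  Products: `k_k η(y) = η(σ y) k_k` and `k_k⁻¹ η(y) = η(σ' y) k_k⁻¹`, because
`k_k F_i = q^(-a_ki) F_i k_k` (`KF`; `K^(l-1)` has the inverse weight as `q^l = 1`).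
(3) For a word `w` with letters `< N`, `p(f_w)` is a combination of words obtained from `w` by deleting
one letter `k` (induction: `p(f_i y) = f_i p(y) + p(f_i) σ(y)`, `σ(f_w)` is a multiple of `f_w`): words `w'` with
letters `< N` and `count m w' + [m = k] = count m w`.
(4) Let `Nm` be the quotient (`RingQuot`) of `Fr` by the relations `f_i = 0` (`i ≥ N`), the relations of
`SerreRel`, and `rvA q f d i ^ l = 0`; `π : Fr → Nm`.  By MOW (in `Fr`) `mon N q f a` is a combination of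
words of content `cn N a`; by (3) and SPW (in `Nm`, family `π f`) `π (p (mon N q f a))` is in the span of
the `mon N q (π f) b`, `b` admissible with `cn N b m + [m = k] = cn N a m` for all `m < N`.  Choose
coefficients `P k b a` with this support (`π (p (mon a)) = ∑_b P k b a • mon N q (π f) b`), and `Q` with
`p'`.
(5) For a `GlT` family `η` factors through `Nm` (`F_out`, `sF`, `pF`; `mon`, `rvA` are compatible with
algebra maps), so (2) with `x = mon N q f a` gives `com`. -/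
def S_VD : Prop := ∀ (N l : ℕ) (q : ℂ), Par N l q → Nonempty (VD N l q)

/-! ### the deformed modules `Z(lam)` -/

/-- **INT** (packet INT): interpolation.
PROOF.  Write `e_a = q^a P - q^(-a) Q`, `e'_b = q^b P' - q^(-b) Q'`.  `g(U,V,W) = U V W -
(q + q⁻¹) U W V + W U V` is trilinear and the Serre relation is `g(e, e, e') = 0`.  Expand `g(e_a, e_a, e'_b)`:
it is the sum of `q^(2a+b) g(P,P,P')`, `-q^(2a-b) g(P,P,Q')`, `-q^b (g(P,Q,P') + g(Q,P,P'))`,
`q^(-b) (g(P,Q,Q') + g(Q,P,Q'))`, `q^(-2a+b) g(Q,Q,P')`, `-q^(-2a-b) g(Q,Q,Q')`.  Multiply by `q^(-2a)`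
(resp. `1`, `q^(2a)`) and by `q^(-b)` (resp. `q^b`), sum over `a, b < l`: since `q²`, `q⁴` and their
inverses are not `1` (`l` odd, `l ≥ 3`) and `∑_{a<l} z^a = 0` for every `l`-th root of unity `z ≠ 1`, all
six expressions vanish.  In `S`, with `e = x f(P) - xi f(Q)`, `e' = y f(P') - yi f(Q')` and central
`x, xi, y, yi`, `g(e,e,e')` is the combination of the images of the six expressions with the
coefficients `x² y, x² yi, x xi y, x xi yi, xi² y, xi² yi` (up to sign).  So it is `0`.  The other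
statements are the same with fewer terms: (1) exponents `±1`, `±1`, (3), (4) exponents `±1`. -/
def S_INT : Prop :=
  ∀ (R S : Type) [Ring R] [Algebra ℂ R] [Ring S] [Algebra ℂ S] (l : ℕ) (q : ℂ), Odd l → 3 ≤ l →
    IsPrimitiveRoot q l → ∀ (f : R →ₐ[ℂ] S) (P Q P' Q' : R) (x xi y yi : S),
    (∀ z, x * z = z * x) → (∀ z, xi * z = z * xi) → (∀ z, y * z = z * y) →
    (∀ z, yi * z = z * yi) →
    ((∀ a b : ℕ, (q ^ a • P - q⁻¹ ^ a • Q) * (q ^ b • P' - q⁻¹ ^ b • Q')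
        = (q ^ b • P' - q⁻¹ ^ b • Q') * (q ^ a • P - q⁻¹ ^ a • Q)) →
      (x * f P - xi * f Q) * (y * f P' - yi * f Q')
        = (y * f P' - yi * f Q') * (x * f P - xi * f Q)) ∧
    ((∀ a b : ℕ, (q ^ a • P - q⁻¹ ^ a • Q) ^ 2 * (q ^ b • P' - q⁻¹ ^ b • Q')
        - (q + q⁻¹) • ((q ^ a • P - q⁻¹ ^ a • Q) * (q ^ b • P' - q⁻¹ ^ b • Q')
          * (q ^ a • P - q⁻¹ ^ a • Q))
        + (q ^ b • P' - q⁻¹ ^ b • Q') * (q ^ a • P - q⁻¹ ^ a • Q) ^ 2 = 0) →
      (x * f P - xi * f Q) ^ 2 * (y * f P' - yi * f Q')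
        - (q + q⁻¹) • ((x * f P - xi * f Q) * (y * f P' - yi * f Q') * (x * f P - xi * f Q))
        + (y * f P' - yi * f Q') * (x * f P - xi * f Q) ^ 2 = 0) ∧
    (∀ (F H H' : R) (c : ℂ),
      (∀ a : ℕ, (q ^ a • P - q⁻¹ ^ a • Q) * F - F * (q ^ a • P - q⁻¹ ^ a • Q)
        = c • (q ^ a • H - q⁻¹ ^ a • H')) →
      (x * f P - xi * f Q) * f F - f F * (x * f P - xi * f Q) = c • (x * f H - xi * f H')) ∧
    (∀ (D : R) (c : ℂ),
      (∀ a : ℕ, D * (q ^ a • P - q⁻¹ ^ a • Q) = c • ((q ^ a • P - q⁻¹ ^ a • Q) * D)) →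
      f D * (x * f P - xi * f Q) = c • ((x * f P - xi * f Q) * f D))

/-- **ZC** (packet ZC): the matrices of `Z(lam)` over `ℂ`.  Hypotheses allowed: S_ZB, S_ZUNIV,
S_FDIM, S_FM, S_KM.
PROOF.  `A = A N l q`, `v = zgen q lam`; the `F^a v` (`a ∈ EX`) are a basis of `Zl q lam` (ZB).  Let
`ρ : A →ₐ Matrix EX EX ℂ` be `a ↦` the matrix of `lsm a` in this basis (`LinearMap.toMatrixAlgEquiv`;
`a ↦ lsm a` is an algebra map).  `ρ(F_k) = PhM k` (FM for `F`; `zF N l q ℂ k`).  `ρ(K_j)`: by KM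
(with `GlT.of_glRel (glA ..)`) `K_j F^a v = q^(wz a j) F^a K_j v = q^(wz a j) qz(lam_j) F^a v`; `K_j = 1` for
`j > N`.  `ρ(E_k)`, `k < N`: by `V.com` (`t = t' = 1`) `E_k F^a v = F^a E_k v + ∑_b P k b a F^b k_k v -
∑_b Q k b a F^b k_k⁻¹ v`, `E_k v = 0`, `k_k v = qz(lam_k) qz(lam_{k+1})^(l-1) v = qz(lam_k - lam_{k+1}) v`
(`qz` is multiplicative and `q^l = 1`).  So `ρ` maps `gE, gF, gK` to `zE, zF, zK`, and `GlRel.map` gives (1).
(3): `ρ(mon N q gF a) = mon N q zF a` (`rv_map`), and `mon N q gF a • v = F^a v` has the coordinates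
`Pi.single a 1`; `v = F^0 v` has the coordinates `Pi.single (zX N l) 1` (`mon` of `0` is `1`).  (2):
`E_k v = 0`. -/
def S_ZC : Prop :=
  ∀ (N l : ℕ) [NeZero l] (q : ℂ) (_ : Dl N l q), Par N l q → ∀ (V : VD N l q)
    (lam : Fin (N + 1) → ZMod l),
    GlRel N l q (zE V (fun _ => (1 : ℂ)) (fun _ => 1) lam) (zF N l q ℂ) (zK q ℂ lam) ∧
    (∀ k, zE V (fun _ => (1 : ℂ)) (fun _ => 1) lam k *ᵥ Pi.single (zX N l) 1 = 0) ∧
    (∀ a : EX N l, mon N q (zF N l q ℂ) a.1 *ᵥ Pi.single (zX N l) 1 = Pi.single a 1)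

/-- **CM1T** (packet CM1T): commutators of `E_ij` with `F_k`.  Model: `S_CM1` (grep CM1), the same
with `t`, `t'`.  Hypotheses allowed: S_ROOT, S_KWT.
PROOF.  `h_i = [E_i, F_i] = (t_i k_i - t'_i k_i⁻¹)/(q - q⁻¹)`, `k_i = K_i K_{i+1}⁻¹`; `t_i`, `t'_i` are central.
(a) `E_ij` is a polynomial in `E_i, ..., E_{j-1}`.  If `k ∉ {i, ..., j-1}` all commute with `F_k`.  If
`i < k < j - 1`: `E_ij = E_i E_{i+1,j} - q⁻¹ E_{i+1,j} E_i` and induction reduces to the case `k = i + 1`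
of `E_{i,j}`, `j ≥ i + 3`: `[E_ij, F_{i+1}] = E_i [E_{i+1,j}, F_{i+1}] - q⁻¹ [E_{i+1,j}, F_{i+1}] E_i` with
(b) `[E_{i+1,j}, F_{i+1}] = -t'_{i+1} E_{i+2,j} k_{i+1}⁻¹` and `k_{i+1}⁻¹ E_i = q E_i k_{i+1}⁻¹`,
`E_i E_{i+2,j} = E_{i+2,j} E_i`: the two terms cancel.
(b) `[E_i E' - q⁻¹ E' E_i, F_i] = h_i E' - q⁻¹ E' h_i`, `E' = E_{i+1,j}`, `k_i E' = q⁻¹ E' k_i`:
`= E' ((q⁻¹ t_i k_i - q t'_i k_i⁻¹) - q⁻¹ (t_i k_i - t'_i k_i⁻¹))/(q - q⁻¹) = -t'_i E' k_i⁻¹`.
(c) `E_{i,j+1} = E' E_j - q⁻¹ E_j E'`, `E' = E_ij` (R3): `[E_{i,j+1}, F_j] = E' h_j - q⁻¹ h_j E'`,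
`k_j E' = q⁻¹ E' k_j`: `= E' ((t_j k_j - t'_j k_j⁻¹) - q⁻¹ (q⁻¹ t_j k_j - q t'_j k_j⁻¹))/(q - q⁻¹) =
q⁻¹ t_j E' k_j`. -/
def S_CM1T : Prop :=
  ∀ (R : Type) [Ring R] [Algebra ℂ R] (N l : ℕ) (q : ℂ) (t t' E F K : ℕ → R), Par N l q →
    GlT N l q t t' E F K →
    (∀ i j k, i < j → j ≤ N → k ≠ i → k + 1 ≠ j → rv q E i j * F k = F k * rv q E i j) ∧
    (∀ i j, i + 2 ≤ j → j ≤ N → rv q E i j * F i - F i * rv q E i j
      = -(t' i * (rv q E (i + 1) j * kk l K (i + 1) i))) ∧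
    (∀ i j, i < j → j + 1 ≤ N → rv q E i (j + 1) * F j - F j * rv q E i (j + 1)
      = q⁻¹ • (t j * (rv q E i j * kk l K j (j + 1))))

/-- **PEC** (packet PEC): `E_ij^l` commutes with the `F_k`.  Hypotheses allowed: S_CM1T, S_ROOT,
S_KWT.
PROOF.  `x = E_ij`, `y = [x, F_k]`.  If `y = 0` clear.  Otherwise `y = c z` with `c` central and `z x =
u x z`, `u = q^(±2)`, so `[x^l, F_k] = ∑_{r<l} x^(l-1-r) y x^r = c (∑_{r<l} u^r) x^(l-1) z = 0`, since `u ≠ 1`,
`u^l = 1`.  The cases: `j = i + 1`, `k = i`: `y` is the sum of two such terms, `z = k_i` (`u = q²`) and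
`z = k_i⁻¹` (`u = q⁻²`).  `j ≥ i + 2`, `k = i`: `z = E_{i+1,j} k_i⁻¹`, `k_i⁻¹ E_ij = q⁻¹ E_ij k_i⁻¹`,
`E_{i+1,j} E_ij = q⁻¹ E_ij E_{i+1,j}` (R11): `u = q⁻²`.  `j ≥ i + 2`, `k = j - 1`: `z = E_{i,j-1} k_{j-1}`,
`k_{j-1} E_ij = q E_ij k_{j-1}`, `E_{i,j-1} E_ij = q E_ij E_{i,j-1}` (R10): `u = q²`. -/
def S_PEC : Prop :=
  ∀ (R : Type) [Ring R] [Algebra ℂ R] (N l : ℕ) (q : ℂ) (t t' E F K : ℕ → R), Par N l q →
    GlT N l q t t' E F K → ∀ i j, i < j → j ≤ N → ∀ k,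
    rv q E i j ^ l * F k = F k * rv q E i j ^ l

/-- **ZREP** (packet ZREP): the deformed `Z(lam)`.  Hypotheses allowed: S_ZC, S_INT, S_PEC.
PROOF.  `i₀ : Matrix EX EX ℂ →ₐ[ℂ] Matrix EX EX B` the entrywise `algebraMap` (`AlgHom.mapMatrix` of
`Algebra.ofId ℂ B`).  For `t = t' = 1` over `ℂ` the relations hold for all `lam` by ZC; `zF`, `zK` over `B`
are the images under `i₀` of the same matrices over `ℂ`, so all relations between the `F`, `K` follow
(`rvA` is compatible with `i₀`).  `zE k` over `B` is `x i₀(P_k) - xi i₀(Q_k)` with the central scalars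
`x = qz(mu) t_k`, `xi = qz(-mu) t'_k`, `mu = lam_k - lam_{k+1}` (a scalar `b` acts by multiplication with
`algebraMap b`).  The relations `KE`, `EF_ne`, `EF`, far commutation and Serre between the `zE` follow from
INT: for `k < N` and every natural number `a` there is a `lam` with `lam_k - lam_{k+1} = a`, and for
`k + 1 < N` and `a, b` there is a `lam` with `lam_k - lam_{k+1} = a`, `lam_{k+1} - lam_{k+2} = b` (for `i + 1 < j`
also `a`, `b` can be prescribed for `i`, `j`), and `qz q a = q^a`, `qz q (-a) = q⁻¹^a`.  In `EF` over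
`ℂ` the right side is `(q-q⁻¹)⁻¹ (qz(mu) H - qz(-mu) H')` with `H, H'` the products
`D_k D_{k+1}^(l-1)`, `D_k^(l-1) D_{k+1}` of the matrices `D_j = zK` for `lam = 0`, since
`zK lam j = qz(lam_j) D_j` and `qz(c)^(l-1) = qz(-c)`.  (If an index is `≥ N` the matrix `zE` is `0`.)
`e = Pi.single (zX N l) 1`.  (3), (4), (5): images of ZC (2), (3), resp. the diagonal entry at
`zX` (`wz N 0 j = 0`); for (3): `P_k e` and `Q_k e` vanish: by `V.hP`, `P k b (zX) ≠ 0` would give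
`cn N b k + 1 = cn N 0 k = 0`.
(2) `E_ij^l = 0`: `rvA q zE d i = rv q zE i (i+d+1)`.  If `i + d + 1 > N` it is `0` (it is a sum of products
containing `zE (i+d) = 0`).  Otherwise `X = E_ij^l` commutes with the `zF k` (PEC), and `X e = 0`
(`E_ij e = 0`, as every word in the `E_k` kills `e`), so `X (Pi.single a 1) = X (mon zF a) e = (mon zF a) X e =
0` for all `a`, by (5). -/
def S_ZREP : Prop :=
  ∀ (N l : ℕ) [NeZero l] (q : ℂ) (_ : Dl N l q), Par N l q → ∀ (V : VD N l q) (B : Type)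
    [CommRing B] [Algebra ℂ B] (t t' : ℕ → B), (∀ i, t i * t' i = 1) →
    ∀ lam : Fin (N + 1) → ZMod l,
    GlT N l q (fun i => algebraMap B (Matrix (EX N l) (EX N l) B) (t i))
      (fun i => algebraMap B (Matrix (EX N l) (EX N l) B) (t' i))
      (zE V t t' lam) (zF N l q B) (zK q B lam) ∧
    (∀ d i, rvA q (zE V t t' lam) d i ^ l = 0) ∧
    (∀ k, zE V t t' lam k *ᵥ Pi.single (zX N l) 1 = 0) ∧
    (∀ j : Fin (N + 1), zK q B lam j *ᵥ Pi.single (zX N l) 1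
      = algebraMap ℂ B (qz q (lam j)) • (Pi.single (zX N l) 1 : EX N l → B)) ∧
    (∀ a : EX N l, mon N q (zF N l q B) a.1 *ᵥ Pi.single (zX N l) 1 = Pi.single a 1)

/-! ### coproduct -/

/-- **CTP** (packet CTP): the coproduct lemma with parameters.  Model: `S_CTG`, `S_CE` (grep
CTG, CE; proved).  Hypotheses allowed: S_CS, S_CP, S_HF, S_KI, S_KW, S_KWT.
PROOF.  Put `F1'_i = t'_i F1_i` (`t'_i` central); `F1'` satisfies `SerreRel`, `pF`, and has the weights of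
`F1`.  `F`-part: `t'_i F1_i k2_i⁻¹ + F2_i = cE l F2 (ki l K2) F1' i` up to commutation (as in the proof of
CTG), so `sF`, `pF` are the `E`-statements CS, CP for the half families `(F2, ki l K2)`,
`(F1', ki l K1)` (HF needs `GlRel` for the first family; for `(F2, ki l K2)` check `HRel` directly:
`K_comm`, `K_pow`, `KE` from KWT).  `sE`: CS for `x_i = E1_i`, `y_i = k1_i E2_i`.
`EF`: `k1 = kk l K1 i (i+1)`, `k2` similarly, `ω = q - q⁻¹`.
`[E1_i + k1 E2_i, t'_i F1_i k2⁻¹ + F2_i] = t'_i [E1_i, F1_i] k2⁻¹ + k1 [E2_i, F2_i] + t'_i (k1 E2_i F1_i k2⁻¹ -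
F1_i k2⁻¹ k1 E2_i)`; the last bracket is `0` (`k1 F1_i = q⁻² F1_i k1`, `k2⁻¹ E2_i = q⁻² E2_i k2⁻¹`), and
`ω⁻¹ (t' (k1 - k1⁻¹) k2⁻¹ + k1 (t k2 - t' k2⁻¹)) = ω⁻¹ (t k1 k2 - t' (k1 k2)⁻¹)`.
`EF_ne`, `KE`, `KF`, `K_comm`, `K_pow`, `..._out`: as in CTG. -/
def S_CTP : Prop :=
  ∀ (R : Type) [Ring R] [Algebra ℂ R] (N l : ℕ) (q : ℂ) (t t' E1 F1 K1 E2 F2 K2 : ℕ → R),
    Par N l q → GlRel N l q E1 F1 K1 → GlT N l q t t' E2 F2 K2 → Cm2 E1 F1 K1 E2 F2 K2 →
    GlT N l q t t' (cE l E1 K1 E2) (fun i => t' i * (F1 i * kk l K2 (i + 1) i) + F2 i)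
      (cK K1 K2)

/-- **CTT** (packet CTT): `V (x) -` and `V* (x) -` of a `GlT` family.  Hypotheses allowed: S_CTP,
S_VREP.  Model: `S_DELTA` (grep DELTA).
PROOF.  In `Mat N R` take `E1 = sc (vE N ·)`, ... (images of VREP under `Matrix.map (algebraMap)`), resp.
`wE`, `wF`, `wK`, and `E2 = diagonal (fun _ => E i)`, ...; they commute, the diagonal matrices of the central
elements `t i` are central in `Mat N R`.  The family of CTP has the entries `dE`, `dFt`, `dK`, resp.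
`eE`, `eFt`, `eK`: `kk l K1 k (k+1) = diag(q^(pr a k))` for `V`, `diag(q^(-pr a k))` for `V*`
(`q^(l-1) = q⁻¹`) for `k < N`; for `k ≥ N`, `E k = 0`, `F k = 0` and the numerical parts vanish
(`vE N k = 0` as no index is `k + 1 ≥ N + 1`). -/
def S_CTT : Prop :=
  ∀ (R : Type) [Ring R] [Algebra ℂ R] (N l : ℕ) (q : ℂ) (t t' E F K : ℕ → R), Par N l q →
    GlT N l q t t' E F K →
    GlT N l q (fun i => (Matrix.diagonal fun _ => t i : Mat N R))
      (fun i => (Matrix.diagonal fun _ => t' i : Mat N R)) (dE N q E) (dFt N l t' F K)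
      (dK N q K) ∧
    GlT N l q (fun i => (Matrix.diagonal fun _ => t i : Mat N R))
      (fun i => (Matrix.diagonal fun _ => t' i : Mat N R)) (eE N q E) (eFt N l q t' F K)
      (eK N q K)

/-- **GD** (packet GD): the generators on `V (x) Z(lam)` in the basis `F^a (v_j (x) 1)`.
Hypotheses allowed: S_ZREP, S_CTT, S_FM, S_KM.
PROOF.  The matrices `vzE, vzF, vzK` form a `GlT` family with `t = algebraMap (t i)` (CTT for `R =
Matrix EX EX B`, `GlT.map` along `Matrix.compAlgEquiv`; `comp (diagonal (fun _ => algebraMap b)) =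
algebraMap b`).  Column `(j,a)` of `X * Gd` is `(X * mon a) · (j,0)`, where `mon a = mon N q vzF a` and `· (j,0)`
is the column with the index `(j, zX)`, the vector `u_j = v_j (x) 1`.
`F_k`: FM.  `K_m`: `K_m mon a = q^(wz a m) mon a K_m` (KM), and column `(j,0)` of `vzK m` is
`qz((lam + eps_j)_m)` times the unit vector (`m ≤ N`; ZREP (4) and `dK`; for `m > N` both are `1`).
`E_k`, `k < N`: `V.com`: `E_k mon a = mon a E_k + ∑_b P k b a t_k mon b k_k - ∑_b Q k b a t'_k mon b k_k⁻¹`.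
Column `(j,0)` of `vzE k` is `[j = k+1]` times the unit vector `(k,0)` (`dE`; ZREP (3)), so
`(mon a E_k) · (j,0) = [j = k+1] Gd · (k,a)`, this is the `offd` part; column `(j,0)` of `kk l vzK k (k+1)` is
`qz((lam+eps_j)_k - (lam+eps_j)_{k+1})` times the unit vector.  So the rest is the `bdg` part with
`zE (lam + eps_j)`.  `k ≥ N`: everything is `0`. -/
def S_GD : Prop :=
  ∀ (N l : ℕ) [NeZero l] (q : ℂ) (_ : Dl N l q), Par N l q → ∀ (V : VD N l q) (B : Type)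
    [CommRing B] [Algebra ℂ B] (t t' : ℕ → B), (∀ i, t i * t' i = 1) →
    ∀ (lam : Fin (N + 1) → ZMod l) (k : ℕ),
    vzE V t t' lam k * Gd q t' lam
      = Gd q t' lam * (bdg (fun j => zE V t t' (addE lam j) k) + offd N l B k) ∧
    vzF q t' lam k * Gd q t' lam = Gd q t' lam * bdg (fun _ : Fin (N + 1) => zF N l q B k) ∧
    vzK q B lam k * Gd q t' lam
      = Gd q t' lam * bdg (fun j : Fin (N + 1) => zK q B (addE lam j) k)

/-- **GE** (packet GE): the same for `V* (x) Z(lam)`.  Hypotheses allowed: S_ZREP, S_CTT, S_FM,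
S_KM.
PROOF.  As GD, with `eE, eFt, eK`: column `(j,0)` of `wzE k` (`k < N`) is `-q [j = k]` times the unit vector
`(k+1,0)`; column `(j,0)` of `wzK m` is `qz((lam - eps_j)_m)` times the unit vector. -/
def S_GE : Prop :=
  ∀ (N l : ℕ) [NeZero l] (q : ℂ) (_ : Dl N l q), Par N l q → ∀ (V : VD N l q) (B : Type)
    [CommRing B] [Algebra ℂ B] (t t' : ℕ → B), (∀ i, t i * t' i = 1) →
    ∀ (lam : Fin (N + 1) → ZMod l) (k : ℕ),
    wzE V t t' lam k * Ge q t' lam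
      = Ge q t' lam * (bdg (fun j => zE V t t' (subE lam j) k) + offe N l q B k) ∧
    wzF q t' lam k * Ge q t' lam = Ge q t' lam * bdg (fun _ : Fin (N + 1) => zF N l q B k) ∧
    wzK q B lam k * Ge q t' lam
      = Ge q t' lam * bdg (fun j : Fin (N + 1) => zK q B (subE lam j) k)

/-- **GID** (packet GID): `Gd` is invertible.  Hypotheses allowed: S_GD, S_ZC, S_CUP0.
PROOF.  (1) Reduction: `aug` is a map of `ℂ`-algebras, `aug (t' i) = 1`, so `(Gd q t' lam).map aug = G₁`,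
`G₁ = Gd q (fun _ => (1:ℂ)) lam` (`mon`, `vzF` are compatible with `aug.mapMatrix`; `zF`, `zK` have entries
`algebraMap c`), so `aug (det Gd) = det G₁` (`RingHom.map_det`).  An element `b` of `B` with `aug b ≠ 0` is
a unit: `b = aug b (1 + nilpotent)` (`IsNilpotent.isUnit_one_add`...).  So it is enough that
`det G₁ ≠ 0`.
(2) Let `ρ = liftA (ZC (1)) : A → Matrix EX EX ℂ`, `ρV a = comp ((D.dl a).map ρ)`, an algebra map with
`ρV (gE k) = vzE`, ... (`t' = 1`: `dFt = dF`).  Let `W` be the span of the columns of `G₁` in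
`Fin (N+1) × EX → ℂ`.  By GD, `W` is stable under the `vzE k, vzF k, vzK k`, so under all `ρV a`
(`A_induction`).  `u_j = Pi.single (j, zX) 1` is column `(j, 0)` of `G₁` (`mon` of `0` is `1`).
(3) CUP0: `∑_i δ(ε(a)_ji)_pi = [j = p] a`, so `∑_i ρV(ε(a)_ji) u_i` has the `p`-th component
`∑_i ρ(δ(ε(a)_ji)_pi) e = [j = p] ρ(a) e`, `e = Pi.single zX 1`.  For `a = mon N q gF b`: `ρ(a) e =
Pi.single b 1` (ZC (3)), so `Pi.single (j,b) 1 ∈ W` for all `j, b`.  So the columns of `G₁` span, `G₁` is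
surjective, hence invertible. -/
def S_GID : Prop :=
  ∀ (N l : ℕ) [NeZero l] (q : ℂ) (_ : Dl N l q), Par N l q → ∀ (_ : VD N l q) (B : Type)
    [CommRing B] [Algebra ℂ B] (aug : B →ₐ[ℂ] ℂ), (∀ b, aug b = 0 → IsNilpotent b) →
    ∀ (t' : ℕ → B), (∀ i, aug (t' i) = 1) → ∀ (lam : Fin (N + 1) → ZMod l),
    IsUnit (Gd q t' lam).det

/-- **GIE** (packet GIE): `Ge` is invertible.  Hypotheses allowed: S_GE, S_ZC, S_CUP1.
PROOF.  As GID, with `D.ep` and CUP1: `∑_k q^(2k) ε(δ(a)_pk)_jk = [j = p] q^(2p) a`, so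
`∑_k q^(2k) ρW(δ(a)_pk) u_k` (`u_k = Pi.single (k, zX) 1`, `ρW a = comp ((D.ep a).map ρ)`) has the `j`-th
component `[j = p] q^(2p) ρ(a) e`. -/
def S_GIE : Prop :=
  ∀ (N l : ℕ) [NeZero l] (q : ℂ) (_ : Dl N l q), Par N l q → ∀ (_ : VD N l q) (B : Type)
    [CommRing B] [Algebra ℂ B] (aug : B →ₐ[ℂ] ℂ), (∀ b, aug b = 0 → IsNilpotent b) →
    ∀ (t' : ℕ → B), (∀ i, aug (t' i) = 1) → ∀ (lam : Fin (N + 1) → ZMod l),
    IsUnit (Ge q t' lam).det

/-- **THV** (packet THV): the twist on `V (x) Z(lam)`, `V* (x) Z(lam)`.  Hypotheses allowed: S_FM,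
S_MOW.
PROOF.  `Θ = diagonal (fun z => s_{z.1} θ_{z.2})`.  (1) `Θ vzF_k = (si_k s_{k+1}) vzF_k Θ`: the entry
`((i,b),(j,c))` of `vzF k` is `[i = j] zF k b c + [i = k+1, j = k] [b = c] (number)`.  For `i = j`: if
`PhM k b c ≠ 0` then `cn b m = cn c m + [m = k]` (FM (2)), so `θ_b = si_k s_{k+1} θ_c`.  For `i = k+1, j = k`:
`s_{k+1} θ_b = si_k s_{k+1} s_k θ_b`.
(2) so for a word `w` (letters `< N`) `Θ F_w = ∏_m (si_m s_{m+1})^{count m w} F_w Θ`, and by MOW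
`Θ mon a = θ_a mon a Θ`.  (3) column `(j,0)` of `Θ` is `s_j θ_0 = s_j` times the unit vector.  So
`(Θ Gd) x (j,a) = (Θ mon a) x (j,0) = θ_a (mon a Θ) x (j,0) = θ_a s_j Gd x (j,a)`.
For `Ge`: `Θ' = diagonal (si_{z.1} θ_{z.2})`; the off-diagonal part of `wzF k` has `i = k`, `j = k+1`:
`si_k = (si_k s_{k+1}) si_{k+1}`. -/
def S_THV : Prop :=
  ∀ (N l : ℕ) [NeZero l] (q : ℂ), Par N l q → ∀ (B : Type) [CommRing B] [Algebra ℂ B]
    (p : Pr B) (t' : ℕ → B) (lam : Fin (N + 1) → ZMod l),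
    (Matrix.diagonal fun z : Fin (N + 1) × EX N l => p.s z.1 * thE p z.2) * Gd q t' lam
      = Gd q t' lam * Matrix.diagonal (fun z : Fin (N + 1) × EX N l => p.s z.1 * thE p z.2) ∧
    (Matrix.diagonal fun z : Fin (N + 1) × EX N l => p.si z.1 * thE p z.2) * Ge q t' lam
      = Ge q t' lam * Matrix.diagonal (fun z : Fin (N + 1) × EX N l => p.si z.1 * thE p z.2)

/-- **CLF** (packet CLF): the first closure.  Hypotheses allowed: S_GD, S_GID, S_THV.
PROOF.  Fix `x`, `lam = lamOf x`.  Let `RV a = comp ((dlB a).map (rep lam))`, a `B`-algebra map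
`FB B → Matrix (Fin × EX) (Fin × EX) B` with `RV xE = vzE`, `RV xF = vzF`, `RV xK = vzK` (`t' = p.t'`; `rep lam`
maps `ki l xK j` to `ki l zK j` etc.).  Let `T : FB B → Matrix (Fin × EX) (Fin × EX) B` be the algebra map with
`T xE_k = bdg (zE (lam+eps_j) k) + offd k`, `T xF_k = bdg zF k`, `T xK_k = bdg (zK (lam+eps_j) k)`.
(1) `RV a * Gd = Gd * T a` for all `a` (`FreeAlgebra.induction`, GD).
(2) `T a` is block triangular: `T a (i,b) (j,c) = 0` unless `i ≤ j`, and `T a (j,b) (j,c) = rep (lam+eps_j) a b c`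
(induction: generators clear (`offd` has `i = k`, `j = k+1`); products of block triangular matrices).
(3) `Θ = diagonal (s_{z.1} θ_{z.2})`: `∑_i s_i tr(rep lam (dlB a i i) Thm) = tr (RV a Θ)`.
(4) `G = Gd` is invertible (GID; `aug (p.t' k) = 1`), `Θ G = G Θ` (THV): `tr(RV a Θ) = tr(RV a Θ G G⁻¹) =
tr(G T(a) Θ G⁻¹) = tr(T(a) Θ) = ∑_j s_j tr(rep (lam+eps_j) a Thm)`, and `lamOf x + eps_j =
lamOf (addE x j)`. -/
def S_CLF : Prop :=
  ∀ (N l : ℕ) [NeZero l] (q : ℂ) (_ : Dl N l q), Par N l q → ∀ (V : VD N l q) (B : Type)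
    [CommRing B] [Algebra ℂ B] (aug : B →ₐ[ℂ] ℂ), (∀ b, aug b = 0 → IsNilpotent b) →
    ∀ (p : Pr B), (∀ j, aug (p.κ j) = 1) → ∀ a : FB B,
    TH V p (fB N l q p a) = opF p (TH V p a)

/-- **CLE** (packet CLE): the second closure.  Hypotheses allowed: S_GE, S_GIE, S_THV.
PROOF.  As CLF, with `epB`, `Ge`, `subE`, `offe`; here the matrices `T a` are block triangular in the
other direction (`offe k` has `i = k+1`, `j = k`). -/
def S_CLE : Prop :=
  ∀ (N l : ℕ) [NeZero l] (q : ℂ) (_ : Dl N l q), Par N l q → ∀ (V : VD N l q) (B : Type)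
    [CommRing B] [Algebra ℂ B] (aug : B →ₐ[ℂ] ℂ), (∀ b, aug b = 0 → IsNilpotent b) →
    ∀ (p : Pr B), (∀ j, aug (p.κ j) = 1) → ∀ a : FB B,
    TH V p (eB N l q p a) = opE p (TH V p a)

/-! ### the central element `c_1` -/

/-- **LFT** (packet LFT).  Model: `S_LF` (grep LF, the same with `κ`).  Hypotheses allowed: S_CM1T,
S_KWT, S_ROOT.
PROOF.  `L̂_ab = κ_a L_ab`, `t_k = κ_k κi_{k+1}`, `t'_k = κi_k κ_{k+1}`.  Entry `(a,b)`:
`[b=k] L̂_{a,k+1} t'_k K_{k+1} K_k⁻¹ + L̂_ab F_k = q^{-pr(a,k)} F_k L̂_ab + [a=k+1] L̂_kb`.  `a < b`: all terms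
`0`.  `a = b`: `K_a F_k = q^{-pr(a,k)} F_k K_a` (and `L_{k,k+1} = 0`).  `b < a`: with
`K_a F_k = q^{-pr(a,k)} F_k K_a` it says `q^{-pr(a,k)} (1-q⁻²) κ_a [E_ba, F_k] K_a = [a=k+1] κ_k L_kb -
[b=k] κ_a L_{a,k+1} t'_k K_{k+1} K_k⁻¹`.
`b = k, a = k+1`: `q (1-q⁻²)/(q-q⁻¹) = 1`, `κ_{k+1} (t_k K_k K_{k+1}⁻¹ - t'_k K_k⁻¹ K_{k+1}) K_{k+1} = κ_k K_k -
κ_{k+1} K_{k+1} t'_k K_{k+1} K_k⁻¹` (`κ_{k+1} t_k = κ_k`).  `b = k, a > k+1`: `[E_ka, F_k] = -t'_k E_{k+1,a}
K_k⁻¹ K_{k+1}` (CM1T).  `a = k+1, b < k`: `[E_{b,k+1}, F_k] = q⁻¹ t_k E_bk K_k K_{k+1}⁻¹` (CM1T),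
`κ_{k+1} t_k = κ_k`.  Otherwise `[E_ba, F_k] = 0`. -/
def S_LFT : Prop :=
  ∀ (R : Type) [Ring R] [Algebra ℂ R] (N l : ℕ) (q : ℂ) (κ κi E F K : ℕ → R), Par N l q →
    (∀ i x, κ i * x = x * κ i) → (∀ i x, κi i * x = x * κi i) → (∀ i, κ i * κi i = 1) →
    GlT N l q (fun k => κ k * κi (k + 1)) (fun k => κi k * κ (k + 1)) E F K → ∀ k,
    (Matrix.of fun a b : Fin (N + 1) => κ a * Lent q E K a b)
        * dFt N l (fun k => κi k * κ (k + 1)) F K k
      = oF N q F k * (Matrix.of fun a b : Fin (N + 1) => κ a * Lent q E K a b)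

/-- **YFT** (packet YFT).  Model: `S_YF` (grep YF, the same with `κ`).  Hypotheses allowed: S_RO,
S_KWT.
PROOF.  `Ŷ_ab = κ_a Y_ab`.  Entry `(a,b)`: `q^{-pr(b,k)} Ŷ_ab F_k + [b=k] Ŷ_{a,k+1} = [a=k+1] t'_k K_{k+1} K_k⁻¹
Ŷ_kb + F_k Ŷ_ab`; for `a = k+1`: `t'_k κ_k = κ_{k+1}`, so `κ_a` is a common factor of all terms, and it is
the identity (Y2) of `S_YF`: `b < a`: only `a = k+1, b = k`: `K_{k+1} = K_{k+1} K_k⁻¹ K_k`.  `a = b`: `a ≠ k, k+1`
clear; `a = k`: `q⁻² F_k K_k + (q-q⁻¹) q⁻¹ F_k K_k = F_k K_k`; `a = k+1`: `q² F_k K_{k+1} = (q-q⁻¹) K_{k+1} F_k +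
F_k K_{k+1}`.  `a < b`: after division by `(q-q⁻¹) K_a` (`F_k K_a = q^{pr(a,k)} K_a F_k`):
`q^{-pr(b,k)} F°_ab F_k + [b=k] F°_{a,k+1} = [a=k+1] F°_kb + q^{pr(a,k)} F_k F°_ab`:
`a = k+1`: definition of `F°_kb`; `a = k, b = k+1` trivial; `a = k, b ≥ k+2`, `a < k, b = k+1`,
`a < k, b = k`, the rest: the five statements of RO. -/
def S_YFT : Prop :=
  ∀ (R : Type) [Ring R] [Algebra ℂ R] (N l : ℕ) (q : ℂ) (κ κi E F K : ℕ → R), Par N l q →
    (∀ i x, κ i * x = x * κ i) → (∀ i x, κi i * x = x * κi i) → (∀ i, κ i * κi i = 1) →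
    GlT N l q (fun k => κ k * κi (k + 1)) (fun k => κi k * κ (k + 1)) E F K → ∀ k,
    (Matrix.of fun a b : Fin (N + 1) => κ a * Yent q F K a b) * oF N q F k
      = dFt N l (fun k => κi k * κ (k + 1)) F K k
        * (Matrix.of fun a b : Fin (N + 1) => κ a * Yent q F K a b)

/-- **C1F** (packet C1F): `c_1` commutes with the `F_k`.  Hypotheses allowed: S_LFT, S_YFT, S_KWT.
PROOF.  For `k ≥ N`, `F_k = 0`.  `X̂ = Ŷ L̂`, `X̂_ab = ∑_c κ_a κ_c Y_ac L_cb`, so `c_1 = ∑_a w_a X̂_aa`,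
`w_a = q^{-2a}`.  `X̂ dFt_k = Ŷ oF_k L̂ = dFt_k X̂` (LFT, YFT).  Take the `(s,s)` entries, multiply by `w_s` and
sum: `(X̂ dFt_k)_ss = X̂_ss F_k + [s=k] X̂_{k,k+1} t'_k k_k⁻¹`, `(dFt_k X̂)_ss = F_k X̂_ss + [s=k+1] t'_k k_k⁻¹
X̂_{k,k+1}` (`k_k⁻¹ = K_{k+1} K_k⁻¹`).  So `c_1 F_k - F_k c_1 = w_{k+1} t'_k k_k⁻¹ X̂_{k,k+1} - w_k t'_k X̂_{k,k+1}
k_k⁻¹`.  `X̂_ab` has the weight `eps_b - eps_a` (KWT: `Y_ac` has the weight `-(eps_a - eps_c)`, `L_cb` the weight
`eps_b - eps_c`), so `k_k⁻¹ X̂_{k,k+1} = q² X̂_{k,k+1} k_k⁻¹`, and `w_{k+1} q² = w_k`. -/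
def S_C1F : Prop :=
  ∀ (R : Type) [Ring R] [Algebra ℂ R] (N l : ℕ) (q : ℂ) (κ κi E F K : ℕ → R), Par N l q →
    (∀ i x, κ i * x = x * κ i) → (∀ i x, κi i * x = x * κi i) → (∀ i, κ i * κi i = 1) →
    GlT N l q (fun k => κ k * κi (k + 1)) (fun k => κi k * κ (k + 1)) E F K → ∀ k,
    c1g N q κ E F K * F k = F k * c1g N q κ E F K

/-- **CLM** (packet CLM): the third closure.  Hypotheses allowed: S_C1F, S_ZREP.
PROOF.  `rep lam (cB) = c1g N q (algebraMap κ) zE zF zK =: c` (`Yent`, `Lent` are compatible with algebra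
maps).  It commutes with the `zF k` (C1F with ZREP (1): `p.t k = κ_k κi_{k+1}`), and on
`e = Pi.single zX 1`: `Lent b a` (`b > a`) is a multiple of `E_ab K_b`, and kills `e` (`K_b e` is a multiple of
`e`, `E_ab e = 0`), `Lent b a = 0` for `b < a`, so `c e = ∑_a q^{-2a} κ_a² K_a² e = (∑_a q^{-2a} κ_a²
qz(lam_a)²) e =: γ e`, and `q^{-2a} qz(lam_a)² = qz(2 (lam_a - a)) = qz(2 x_a)` for `lam = lamOf x`.  So
`c (Pi.single a 1) = c (mon zF a) e = (mon zF a) c e = γ (Pi.single a 1)`, `c = γ • 1`, and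
`tr(c rep(a) Thm) = γ tr(rep(a) Thm)`. -/
def S_CLM : Prop :=
  ∀ (N l : ℕ) [NeZero l] (q : ℂ) (_ : Dl N l q), Par N l q → ∀ (V : VD N l q) (B : Type)
    [CommRing B] [Algebra ℂ B] (p : Pr B) (a : FB B),
    TH V p (cB N q p * a) = opM q p (TH V p a)

/-! ### trace property, reduction -/

/-- **TWI** (packet TWI): the trace property modulo `I`.  Hypotheses allowed: S_FM.
PROOF.  (1) For all `lam`, `Θ = Thm`: `Θ zE_k = (s_k si_{k+1}) zE_k Θ` (`V.hP`, `V.hQ`: if `P k b a ≠ 0` then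
`θ_b (si_k s_{k+1}) = θ_a`, so `θ_b = s_k si_{k+1} θ_a`), `Θ zF_k = (si_k s_{k+1}) zF_k Θ` (FM (2)), `Θ zK = zK Θ`
(diagonal).  Let `ψ : FB B → FB B` be the `B`-algebra map `E_k ↦ s_k si_{k+1} E_k`, `F_k ↦ si_k s_{k+1} F_k`,
`K_j ↦ K_j`.  Then `Θ rep(a) = rep(ψ a) Θ` for all `a` (induction).
(2) `tr(rep(b) rep(a) Θ) = tr(rep(a) Θ rep(b)) = tr(rep(a) rep(ψ b) Θ)`, so
`TH(ab - ba) = TH(a (b - ψ b))`.
(3) `J = I • ⊤ ≤ FB B` (as `B`-module) is stable under left and right multiplication by elements of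
`FB B`, and `b - ψ b ∈ J` for all `b`: scalars `0`; generators `(1 - s_k si_{k+1}) E_k`,
`1 - s_k si_{k+1} = (s_{k+1} - s_k) si_{k+1} ∈ I`, similarly `F`; products:
`ab - ψ(a)ψ(b) = (a - ψ a) b + ψ(a) (b - ψ b)`.
(4) `TH` is `B`-linear, so `TH(J) ≤ I • range TH`. -/
def S_TWI : Prop :=
  ∀ (N l : ℕ) [NeZero l] (q : ℂ), Par N l q → ∀ (V : VD N l q) (B : Type)
    [CommRing B] [Algebra ℂ B] (p : Pr B) (I : Ideal B), (∀ j, p.s j - 1 ∈ I) → ∀ a b : FB B,
    TH V p (a * b - b * a) ∈ (I • LinearMap.range (TH V p) : Submodule B _)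

/-- **KERR** (packet KERR): `TH` of the kernel of the reduction.  Hypotheses allowed: S_ZREP.
PROOF.  `I = ker aug`, `L = range TH`.  Let `J` be the set of all `a ∈ FB B` with `TH(x a y) ∈ I • L` for
all `x, y`.  It is a two-sided ideal.  It contains
(a) all `a` with `rep lam a = 0` for all `lam` (then `TH(x a y) = 0`),
(b) all `b • a`, `b ∈ I` (`TH(x (b a) y) = b TH(x a y)`).
Let `Q = FB B / J` (a ring and a `ℂ`-algebra; e.g. `TwoSidedIdeal` and `RingCon.Quotient`, or an `Ideal` with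
`IsTwoSided`).  The classes of `xE, xF, xK` satisfy `GlRel N l q` in `Q`: for every relation other than `EF` the
difference of the two sides has `rep lam = 0` by ZREP (1), (2) (relations of the `zE, zF, zK`; `rvA` is
compatible with algebra maps), so (a).  `EF`: `E_i F_i - F_i E_i - ω⁻¹ (t_i K_i K_{i+1}^(l-1) -
t'_i K_i^(l-1) K_{i+1})` is in `J` by (a), and `t_i - 1, t'_i - 1 ∈ I` (`aug κ = 1`, hence
`aug κi = 1`), (b).  So there is `h = liftA : A → Q`, and `h (red a) = [a]` for all `a ∈ FB B`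
(`FreeAlgebra.induction`; for `b ∈ B`: `b - algebraMap (aug b) ∈ I`).  If `red a = 0` then `a ∈ J`; take
`x = y = 1`. -/
def S_KERR : Prop :=
  ∀ (N l : ℕ) [NeZero l] (q : ℂ) (_ : Dl N l q), Par N l q → ∀ (V : VD N l q) (B : Type)
    [CommRing B] [Algebra ℂ B] (aug : B →ₐ[ℂ] ℂ) (p : Pr B), (∀ j, aug (p.κ j) = 1) →
    ∀ a : FB B, red N l q aug a = 0 →
    TH V p a ∈ (RingHom.ker aug • LinearMap.range (TH V p) : Submodule B _)

/-- **RED** (packet RED): the reduction of the operators.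
PROOF.  (1) `red` is surjective: its range contains `algebraMap c` (`red (algebraMap B _ (algebraMap ℂ B c))`,
`aug (algebraMap c) = c`) and the generators, and is closed under sums and products
(`A_induction`).
(2) `(dlB a).map red = D.dl (red a)`: both sides are ring maps `FB B → Mat N (A N l q)`; on `b ∈ B`: both are the
scalar matrix `aug b`; generators: entries of `dE`, `dFt`, `dK` (`red (c • x) = c • red x` for `c ∈ ℂ`;
`red (algebraMap (p.t' k)) = 1`) (`FreeAlgebra.induction`).  `red (s_i • y) = red y` (`aug s_i = 1`).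
(3) the same for `eps`; `aug (si i) = 1`.  (4) entries: `red (κ_a κ_b (Y L)) = Y L`, `Xm = Ymat * Lmat`. -/
def S_RED : Prop :=
  ∀ (N l : ℕ) (q : ℂ) (D : Dl N l q), Par N l q → ∀ (B : Type)
    [CommRing B] [Algebra ℂ B] (aug : B →ₐ[ℂ] ℂ) (p : Pr B), (∀ j, aug (p.κ j) = 1) →
    (∀ j, aug (p.s j) = 1) →
    Function.Surjective (red N l q aug) ∧
    (∀ a, red N l q aug (fB N l q p a) = Matrix.trace (D.dl (red N l q aug a))) ∧
    (∀ a, red N l q aug (eB N l q p a) = Matrix.trace (D.ep (red N l q aug a))) ∧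
    red N l q aug (cB N q p) = ∑ a : Fin (N + 1), (q⁻¹ ^ (2 * (a : ℕ))) • Xm N l q a a

end

end Pool.Agent.Helper41.SQC
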