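import Pool.Agent.Helper4.SQ.GoalsR2

/-!
# MP_bb32d1_al, stage C (lower bound, exact formula): definitions

`B` is a commutative `ℂ`-algebra (later the ring `DR n` of diagonal coinvariants), with units
`κ_j`, `s_j`.  `t_k = κ_k κ_{k+1}⁻¹`.

* `GlT N l q t t' E F K`: the relations of `u_q(gl_{N+1})` (without `E_ij^l = 0`), in which the
  central units `t_k` are inserted in the relation `[E_k, F_k]`.
* `VD N l q`: the structure constants `P`, `Q` of the commutators `[E_k, F^a]`.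
* `zE`, `zF`, `zK`: the matrices of the generators on the deformed module `Z(lam)` in the basis
  `F^a 1` (`a ∈ EX N l`).
* `FB B`: the free algebra over `B` on the generators; `dlB`, `epB`: the deformed maps `delta`,
  `eps` on it; `TH`: the twisted characters of all `Z(lam)`.
-/

set_option autoImplicit false

namespace Pool.Agent.Helper41.SQC

noncomputable section

open Matrix Pool.Agent.Helper19.SQ Pool.Agent.Helper34.SQ Pool.Agent.Helper41.SQ
  Pool.Agent.Helper4.SQ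

/-- the number of letters `m` in the monomial with the exponents `b`. -/
def cn (N : ℕ) (b : ℕ → ℕ → ℕ) (m : ℕ) : ℕ :=
  ∑ i ∈ Finset.range (m + 1), ∑ j ∈ Finset.Ioc m N, b i j

/-- the `K_j`-weight of `F^b`. -/
def wz (N : ℕ) (b : ℕ → ℕ → ℕ) (j : ℕ) : ℤ :=
  -∑ m ∈ Finset.range N, pr j m * (cn N b m : ℤ)

/-- The relations of `u_q(gl_{N+1})` with central units `t_i` (inverse `t'_i`) in the relation
`[E_i, F_i]`; the relations `E_ij^l = 0` are not included. -/
structure GlT (N l : ℕ) (q : ℂ) {R : Type} [Ring R] [Algebra ℂ R] (t t' E F K : ℕ → R) :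
    Prop where
  tc : ∀ i x, t i * x = x * t i
  tc' : ∀ i x, t' i * x = x * t' i
  tt : ∀ i, t i * t' i = 1
  E_out : ∀ i, N ≤ i → E i = 0
  F_out : ∀ i, N ≤ i → F i = 0
  K_out : ∀ j, N < j → K j = 1
  K_comm : ∀ i j, K i * K j = K j * K i
  K_pow : ∀ j, K j ^ l = 1
  KE : ∀ j i, K j * E i = q ^ pr j i • (E i * K j)
  KF : ∀ j i, K j * F i = q ^ (-pr j i) • (F i * K j)
  EF : ∀ i, i < N → E i * F i - F i * E i
    = (q - q⁻¹)⁻¹ • (t i * (K i * K (i + 1) ^ (l - 1)) - t' i * (K i ^ (l - 1) * K (i + 1)))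
  EF_ne : ∀ i j, i ≠ j → E i * F j = F j * E i
  sE : SerreRel q E
  sF : SerreRel q F
  pF : ∀ d i, rvA q F d i ^ l = 0

/-- `GlT` families are mapped to `GlT` families, if the images of the `t_i` are central. -/
theorem GlT.map {N l : ℕ} {q : ℂ} {R S : Type} [Ring R] [Algebra ℂ R] [Ring S] [Algebra ℂ S]
    {t t' E F K : ℕ → R} (h : GlT N l q t t' E F K) (f : R →ₐ[ℂ] S)
    (hc : ∀ i x, f (t i) * x = x * f (t i)) (hc' : ∀ i x, f (t' i) * x = x * f (t' i)) :
    GlT N l q (fun i => f (t i)) (fun i => f (t' i)) (fun i => f (E i)) (fun i => f (F i))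
      (fun i => f (K i)) where
  tc := hc
  tc' := hc'
  tt i := by rw [← map_mul, h.tt, map_one]
  E_out i hi := by rw [h.E_out i hi, map_zero]
  F_out i hi := by rw [h.F_out i hi, map_zero]
  K_out j hj := by rw [h.K_out j hj, map_one]
  K_comm i j := by rw [← map_mul, h.K_comm, map_mul]
  K_pow j := by rw [← map_pow, h.K_pow, map_one]
  KE j i := by rw [← map_mul, h.KE, map_smul, map_mul]
  KF j i := by rw [← map_mul, h.KF, map_smul, map_mul]
  EF i hi := by
    have := congrArg f (h.EF i hi)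
    simpa only [map_sub, map_mul, map_smul, map_pow] using this
  EF_ne i j hij := by rw [← map_mul, h.EF_ne i j hij, map_mul]
  sE := by
    refine ⟨fun i j hij => by rw [← map_mul, h.sE.far i j hij, map_mul], fun i => ?_, fun i => ?_⟩
    · have := congrArg f (h.sE.s1 i)
      simpa only [map_sub, map_add, map_mul, map_smul, map_pow, map_zero] using this
    · have := congrArg f (h.sE.s2 i)
      simpa only [map_sub, map_add, map_mul, map_smul, map_pow, map_zero] using this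
  sF := by
    refine ⟨fun i j hij => by rw [← map_mul, h.sF.far i j hij, map_mul], fun i => ?_, fun i => ?_⟩
    · have := congrArg f (h.sF.s1 i)
      simpa only [map_sub, map_add, map_mul, map_smul, map_pow, map_zero] using this
    · have := congrArg f (h.sF.s2 i)
      simpa only [map_sub, map_add, map_mul, map_smul, map_pow, map_zero] using this
  pF d i := by rw [rvA_map, ← map_pow, h.pF, map_zero]

/-- a `GlRel` family is a `GlT` family with `t = t' = 1`. -/
theorem GlT.of_glRel {N l : ℕ} {q : ℂ} {R : Type} [Ring R] [Algebra ℂ R] {E F K : ℕ → R}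
    (h : GlRel N l q E F K) : GlT N l q (fun _ => (1 : R)) (fun _ => 1) E F K where
  tc _ x := by rw [one_mul, mul_one]
  tc' _ x := by rw [one_mul, mul_one]
  tt _ := by rw [one_mul]
  E_out := h.E_out
  F_out := h.F_out
  K_out := h.K_out
  K_comm := h.K_comm
  K_pow := h.K_pow
  KE := h.KE
  KF := h.KF
  EF i hi := by rw [one_mul, one_mul]; exact h.EF i hi
  EF_ne := h.EF_ne
  sE := h.sE
  sF := h.sF
  pF := h.pF

instance (N l : ℕ) : DecidableEq (EX N l) := Classical.decEq _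

/-- the structure constants of `[E_k, F^a]`. -/
structure VD (N l : ℕ) (q : ℂ) where
  P : ℕ → Matrix (EX N l) (EX N l) ℂ
  Q : ℕ → Matrix (EX N l) (EX N l) ℂ
  com : ∀ (R : Type) [Ring R] [Algebra ℂ R] (t t' E F K : ℕ → R), GlT N l q t t' E F K →
    ∀ k, k < N → ∀ a : EX N l, E k * mon N q F a.1 = mon N q F a.1 * E k
      + ∑ b, P k b a • (t k * (mon N q F b.1 * kk l K k (k + 1)))
      - ∑ b, Q k b a • (t' k * (mon N q F b.1 * kk l K (k + 1) k))
  hP : ∀ k, k < N → ∀ a b : EX N l, P k b a ≠ 0 → ∀ m, m < N →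
    cn N b.1 m + (if m = k then 1 else 0) = cn N a.1 m
  hQ : ∀ k, k < N → ∀ a b : EX N l, Q k b a ≠ 0 → ∀ m, m < N →
    cn N b.1 m + (if m = k then 1 else 0) = cn N a.1 m

/-- the matrix of the left multiplication by `F_k` on the `F^a`. -/
def PhM (N l : ℕ) (q : ℂ) (k : ℕ) : Matrix (EX N l) (EX N l) ℂ :=
  Matrix.of fun b a => if k < N then Lf q k a.1 b.1 else 0

/-- the exponent `0`. -/
def zX (N l : ℕ) [NeZero l] : EX N l := ⟨fun _ _ => 0, fun _ _ =>
  ⟨fun _ => Nat.pos_of_ne_zero (NeZero.ne l), fun _ => rfl⟩⟩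

/-- extension of a weight by `0`. -/
def lx {N l : ℕ} (lam : Fin (N + 1) → ZMod l) (j : ℕ) : ZMod l :=
  if h : j < N + 1 then lam ⟨j, h⟩ else 0

/-- `lam_j = x_j + j`. -/
def lamOf {N l : ℕ} (x : Fin (N + 1) → ZMod l) : Fin (N + 1) → ZMod l :=
  fun j => x j + ((j : ℕ) : ZMod l)

section B

variable {N l : ℕ} {q : ℂ} {B : Type} [CommRing B] [Algebra ℂ B]

/-- `E_k` on `Z(lam)`: `q^{mu} t_k P_k - q^{-mu} t_k⁻¹ Q_k`, `mu = lam_k - lam_{k+1}`. -/
def zE (V : VD N l q) (t t' : ℕ → B) (lam : Fin (N + 1) → ZMod l) (k : ℕ) :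
    Matrix (EX N l) (EX N l) B :=
  if k < N then
    (algebraMap ℂ B (qz q (lx lam k - lx lam (k + 1))) * t k) • (V.P k).map (algebraMap ℂ B)
      - (algebraMap ℂ B (qz q (lx lam (k + 1) - lx lam k)) * t' k) •
        (V.Q k).map (algebraMap ℂ B)
  else 0

/-- `F_k` on `Z(lam)`. -/
def zF (N l : ℕ) (q : ℂ) (B : Type) [CommRing B] [Algebra ℂ B] (k : ℕ) :
    Matrix (EX N l) (EX N l) B := (PhM N l q k).map (algebraMap ℂ B)

/-- `K_j` on `Z(lam)`. -/
def zK (q : ℂ) (B : Type) [CommRing B] [Algebra ℂ B] (lam : Fin (N + 1) → ZMod l) (j : ℕ) :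
    Matrix (EX N l) (EX N l) B :=
  if j ≤ N then Matrix.diagonal fun a : EX N l =>
    algebraMap ℂ B (qz q (lx lam j) * q ^ wz N a.1 j) else 1

end B

/-! ### parameters, the free algebra -/

/-- the units `κ_j`, `s_j`. -/
structure Pr (B : Type) [CommRing B] where
  κ : ℕ → B
  κi : ℕ → B
  s : ℕ → B
  si : ℕ → B
  κκ : ∀ j, κ j * κi j = 1
  ss : ∀ j, s j * si j = 1

section Par

variable {B : Type} [CommRing B]

def Pr.t (p : Pr B) (k : ℕ) : B := p.κ k * p.κi (k + 1)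
def Pr.t' (p : Pr B) (k : ℕ) : B := p.κi k * p.κ (k + 1)

theorem Pr.tt (p : Pr B) (k : ℕ) : p.t k * p.t' k = 1 := by
  have h1 := p.κκ k
  have h2 := p.κκ (k + 1)
  unfold Pr.t Pr.t'
  linear_combination h1 * (p.κi (k + 1) * p.κ (k + 1)) + h2

end Par

/-- the free algebra over `B` on the generators `E_i`, `F_i`, `K_j`. -/
abbrev FB (B : Type) [CommRing B] : Type := FreeAlgebra B Gen

section FB

variable (B : Type) [CommRing B]

def xE (k : ℕ) : FB B := FreeAlgebra.ι B (Gen.E k)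
def xF (k : ℕ) : FB B := FreeAlgebra.ι B (Gen.F k)
def xK (k : ℕ) : FB B := FreeAlgebra.ι B (Gen.K k)

end FB

section Mats

variable {R : Type} [Ring R] [Algebra ℂ R]

/-- `delta(F_k)` with the unit `t'_k`. -/
def dFt (N l : ℕ) (t' F K : ℕ → R) (k : ℕ) : Mat N R := Matrix.of fun a b =>
  (if a = b then F k else 0)
    + (if (a : ℕ) = k + 1 ∧ (b : ℕ) = k then t' k * (K (k + 1) * ki l K k) else 0)

/-- `eps(F_k)` with the unit `t'_k`. -/
def eFt (N l : ℕ) (q : ℂ) (t' F K : ℕ → R) (k : ℕ) : Mat N R := Matrix.of fun a b =>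
  (if a = b then F k else 0)
    + (if (a : ℕ) = k ∧ (b : ℕ) = k + 1 then (-q⁻¹) • (t' k * (K (k + 1) * ki l K k)) else 0)

/-- `c_1 = ∑_{a,b} q^{-2a} κ_a κ_b Y_ab L_ba`. -/
def c1g (N : ℕ) (q : ℂ) (κ E F K : ℕ → R) : R :=
  ∑ a : Fin (N + 1), ∑ b : Fin (N + 1),
    (q⁻¹ ^ (2 * (a : ℕ))) • (κ a * κ b * (Yent q F K a b * Lent q E K b a))

end Mats

section Main

variable {N l : ℕ} {q : ℂ} {B : Type} [CommRing B] [Algebra ℂ B]

/-- the representation of the free algebra on the deformed `Z(lam)`. -/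
def rep (V : VD N l q) (p : Pr B) (lam : Fin (N + 1) → ZMod l) :
    FB B →ₐ[B] Matrix (EX N l) (EX N l) B :=
  FreeAlgebra.lift B (genVal (zE V p.t p.t' lam) (zF N l q B) (zK q B lam))

/-- the deformed map `delta` on the free algebra. -/
def dlB (N l : ℕ) (q : ℂ) (p : Pr B) : FB B →ₐ[B] Mat N (FB B) :=
  FreeAlgebra.lift B (genVal (dE N q (xE B))
    (dFt N l (fun k => algebraMap B (FB B) (p.t' k)) (xF B) (xK B)) (dK N q (xK B)))

/-- the deformed map `eps` on the free algebra. -/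
def epB (N l : ℕ) (q : ℂ) (p : Pr B) : FB B →ₐ[B] Mat N (FB B) :=
  FreeAlgebra.lift B (genVal (eE N q (xE B))
    (eFt N l q (fun k => algebraMap B (FB B) (p.t' k)) (xF B) (xK B)) (eK N q (xK B)))

/-- `a ↦ ∑_i s_i delta(a)_ii`. -/
def fB (N l : ℕ) (q : ℂ) (p : Pr B) : FB B →ₗ[B] FB B where
  toFun a := ∑ i : Fin (N + 1), p.s i • dlB N l q p a i i
  map_add' a b := by
    rw [← Finset.sum_add_distrib]
    exact Finset.sum_congr rfl fun i _ => by rw [map_add, Matrix.add_apply, smul_add]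
  map_smul' c a := by
    rw [RingHom.id_apply, Finset.smul_sum]
    exact Finset.sum_congr rfl fun i _ => by rw [map_smul, Matrix.smul_apply, smul_comm]

/-- `a ↦ ∑_i s_i⁻¹ eps(a)_ii`. -/
def eB (N l : ℕ) (q : ℂ) (p : Pr B) : FB B →ₗ[B] FB B where
  toFun a := ∑ i : Fin (N + 1), p.si i • epB N l q p a i i
  map_add' a b := by
    rw [← Finset.sum_add_distrib]
    exact Finset.sum_congr rfl fun i _ => by rw [map_add, Matrix.add_apply, smul_add]
  map_smul' c a := by
    rw [RingHom.id_apply, Finset.smul_sum]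
    exact Finset.sum_congr rfl fun i _ => by rw [map_smul, Matrix.smul_apply, smul_comm]

/-- the lift of `c_1` to the free algebra. -/
def cB (N : ℕ) (q : ℂ) (p : Pr B) : FB B :=
  c1g N q (fun j => algebraMap B (FB B) (p.κ j)) (xE B) (xF B) (xK B)

/-- the eigenvalue `θ_a` of the twist on `F^a 1`. -/
def thE (p : Pr B) (a : EX N l) : B :=
  ∏ m ∈ Finset.range N, (p.si m * p.s (m + 1)) ^ cn N a.1 m

/-- the twist on `Z(lam)`. -/
def Thm (N l : ℕ) (p : Pr B) : Matrix (EX N l) (EX N l) B := Matrix.diagonal (thE p)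

/-- the twisted characters of all `Z(lam)`, `lam_j = x_j + j`. -/
def TH (V : VD N l q) (p : Pr B) : FB B →ₗ[B] ((Fin (N + 1) → ZMod l) → B) where
  toFun a := fun x => Matrix.trace (rep V p (lamOf x) a * Thm N l p)
  map_add' a b := by
    funext x
    simp only [map_add, add_mul, Matrix.trace_add, Pi.add_apply]
  map_smul' c a := by
    funext x
    simp only [map_smul, smul_mul_assoc, Matrix.trace_smul, Pi.smul_apply, RingHom.id_apply]

theorem TH_apply (V : VD N l q) (p : Pr B) (a : FB B) (x : Fin (N + 1) → ZMod l) :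
    TH V p a x = Matrix.trace (rep V p (lamOf x) a * Thm N l p) := rfl

/-! ### `V (x) Z(lam)` and `V* (x) Z(lam)` -/

/-- the matrices of `V (x) Z(lam)` on `Fin (N+1) × EX`. -/
def vzE (V : VD N l q) (t t' : ℕ → B) (lam : Fin (N + 1) → ZMod l) (k : ℕ) :
    Matrix (Fin (N + 1) × EX N l) (Fin (N + 1) × EX N l) B :=
  Matrix.comp _ _ _ _ _ (dE N q (zE V t t' lam) k)

def vzF (q : ℂ) (t' : ℕ → B) (lam : Fin (N + 1) → ZMod l) (k : ℕ) :
    Matrix (Fin (N + 1) × EX N l) (Fin (N + 1) × EX N l) B :=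
  Matrix.comp _ _ _ _ _ (dFt N l (fun k => algebraMap B (Matrix (EX N l) (EX N l) B) (t' k))
    (zF N l q B) (zK q B lam) k)

def vzK (q : ℂ) (B : Type) [CommRing B] [Algebra ℂ B] (lam : Fin (N + 1) → ZMod l) (j : ℕ) :
    Matrix (Fin (N + 1) × EX N l) (Fin (N + 1) × EX N l) B :=
  Matrix.comp _ _ _ _ _ (dK N q (zK q B lam) j)

/-- the matrices of `V* (x) Z(lam)`. -/
def wzE (V : VD N l q) (t t' : ℕ → B) (lam : Fin (N + 1) → ZMod l) (k : ℕ) :
    Matrix (Fin (N + 1) × EX N l) (Fin (N + 1) × EX N l) B :=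
  Matrix.comp _ _ _ _ _ (eE N q (zE V t t' lam) k)

def wzF (q : ℂ) (t' : ℕ → B) (lam : Fin (N + 1) → ZMod l) (k : ℕ) :
    Matrix (Fin (N + 1) × EX N l) (Fin (N + 1) × EX N l) B :=
  Matrix.comp _ _ _ _ _ (eFt N l q (fun k => algebraMap B (Matrix (EX N l) (EX N l) B) (t' k))
    (zF N l q B) (zK q B lam) k)

def wzK (q : ℂ) (B : Type) [CommRing B] [Algebra ℂ B] (lam : Fin (N + 1) → ZMod l) (j : ℕ) :
    Matrix (Fin (N + 1) × EX N l) (Fin (N + 1) × EX N l) B :=
  Matrix.comp _ _ _ _ _ (eK N q (zK q B lam) j)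

/-- the matrix with the columns `F^a (v_j (x) 1)`. -/
def Gd [NeZero l] (q : ℂ) (t' : ℕ → B) (lam : Fin (N + 1) → ZMod l) :
    Matrix (Fin (N + 1) × EX N l) (Fin (N + 1) × EX N l) B :=
  Matrix.of fun x y => mon N q (vzF q t' lam) y.2.1 x (y.1, zX N l)

/-- the matrix with the columns `F^a (φ_j (x) 1)`. -/
def Ge [NeZero l] (q : ℂ) (t' : ℕ → B) (lam : Fin (N + 1) → ZMod l) :
    Matrix (Fin (N + 1) × EX N l) (Fin (N + 1) × EX N l) B :=
  Matrix.of fun x y => mon N q (wzF q t' lam) y.2.1 x (y.1, zX N l)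

/-- block diagonal matrix with the blocks `M j`. -/
def bdg {ι κ : Type} [DecidableEq ι] (M : ι → Matrix κ κ B) : Matrix (ι × κ) (ι × κ) B :=
  Matrix.of fun x y => if x.1 = y.1 then M y.1 x.2 y.2 else 0

/-- the off-diagonal part of `E_k` in the basis `F^a (v_j (x) 1)`. -/
def offd (N l : ℕ) (B : Type) [CommRing B] (k : ℕ) :
    Matrix (Fin (N + 1) × EX N l) (Fin (N + 1) × EX N l) B :=
  Matrix.of fun x y => if (x.1 : ℕ) = k ∧ (y.1 : ℕ) = k + 1 ∧ x.2 = y.2 then 1 else 0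

/-- the off-diagonal part of `E_k` in the basis `F^a (φ_j (x) 1)`. -/
def offe (N l : ℕ) (q : ℂ) (B : Type) [CommRing B] [Algebra ℂ B] (k : ℕ) :
    Matrix (Fin (N + 1) × EX N l) (Fin (N + 1) × EX N l) B :=
  Matrix.of fun x y => if (x.1 : ℕ) = k + 1 ∧ (y.1 : ℕ) = k ∧ x.2 = y.2
    then algebraMap ℂ B (-q) else 0

/-! ### the operators on tuples -/

/-- `(F u)(x) = ∑_j s_j u(x + e_j)`. -/
def opF (p : Pr B) (u : (Fin (N + 1) → ZMod l) → B) : (Fin (N + 1) → ZMod l) → B :=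
  fun x => ∑ j : Fin (N + 1), p.s j * u (addE x j)

/-- `(E u)(x) = ∑_j s_j⁻¹ u(x - e_j)`. -/
def opE (p : Pr B) (u : (Fin (N + 1) → ZMod l) → B) : (Fin (N + 1) → ZMod l) → B :=
  fun x => ∑ j : Fin (N + 1), p.si j * u (subE x j)

/-- `(M u)(x) = (∑_j q^{2 x_j} κ_j²) u(x)`. -/
def opM (q : ℂ) (p : Pr B) (u : (Fin (N + 1) → ZMod l) → B) : (Fin (N + 1) → ZMod l) → B :=
  fun x => (∑ j : Fin (N + 1), algebraMap ℂ B (qz q (2 * x j)) * p.κ j ^ 2) * u x

end Main

/-! ### the reduction -/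

section Red

variable {B : Type} [CommRing B] [Algebra ℂ B]

/-- the reduction `FB B → A`: `b ↦ aug b`, generators to generators. -/
def red (N l : ℕ) (q : ℂ) (aug : B →ₐ[ℂ] ℂ) : FB B →+* A N l q :=
  letI : Algebra B (A N l q) :=
    RingHom.toAlgebra' ((algebraMap ℂ (A N l q)).comp aug.toRingHom)
      (fun c x => Algebra.commutes (aug c) x)
  (FreeAlgebra.lift B (genVal (gE N l q) (gF N l q) (gK N l q))).toRingHom

theorem red_algebraMap (N l : ℕ) (q : ℂ) (aug : B →ₐ[ℂ] ℂ) (b : B) :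
    red N l q aug (algebraMap B (FB B) b) = algebraMap ℂ (A N l q) (aug b) := by
  let _ : Algebra B (A N l q) :=
    RingHom.toAlgebra' ((algebraMap ℂ (A N l q)).comp aug.toRingHom)
      (fun c x => Algebra.commutes (aug c) x)
  exact (FreeAlgebra.lift B (genVal (gE N l q) (gF N l q) (gK N l q))).commutes b

theorem red_E (N l : ℕ) (q : ℂ) (aug : B →ₐ[ℂ] ℂ) (k : ℕ) :
    red N l q aug (xE B k) = gE N l q k := by
  let _ : Algebra B (A N l q) :=
    RingHom.toAlgebra' ((algebraMap ℂ (A N l q)).comp aug.toRingHom)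
      (fun c x => Algebra.commutes (aug c) x)
  exact FreeAlgebra.lift_ι_apply (R := B) (genVal (gE N l q) (gF N l q) (gK N l q)) (Gen.E k)

theorem red_F (N l : ℕ) (q : ℂ) (aug : B →ₐ[ℂ] ℂ) (k : ℕ) :
    red N l q aug (xF B k) = gF N l q k := by
  let _ : Algebra B (A N l q) :=
    RingHom.toAlgebra' ((algebraMap ℂ (A N l q)).comp aug.toRingHom)
      (fun c x => Algebra.commutes (aug c) x)
  exact FreeAlgebra.lift_ι_apply (R := B) (genVal (gE N l q) (gF N l q) (gK N l q)) (Gen.F k)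

theorem red_K (N l : ℕ) (q : ℂ) (aug : B →ₐ[ℂ] ℂ) (k : ℕ) :
    red N l q aug (xK B k) = gK N l q k := by
  let _ : Algebra B (A N l q) :=
    RingHom.toAlgebra' ((algebraMap ℂ (A N l q)).comp aug.toRingHom)
      (fun c x => Algebra.commutes (aug c) x)
  exact FreeAlgebra.lift_ι_apply (R := B) (genVal (gE N l q) (gF N l q) (gK N l q)) (Gen.K k)

end Red

end

end Pool.Agent.Helper41.SQC
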